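import Pool.Agent.H169R2.DM.LCSUM

/-!
Project DM: the proportion of even permutations with a long cycle.
-/

namespace DM852
open RC14 RC852 Finset Filter Equiv

namespace LCPROB

/-- the number of permutations of a set with at least two elements of given sign -/
lemma card_sign (α : Type*) [Fintype α] [DecidableEq α] [Nontrivial α] (s : ℤˣ) :
    2 * (Finset.univ.filter fun u : Perm α => Perm.sign u = s).card = (Fintype.card α).factorial := by
  obtain ⟨x, y, hxy⟩ := exists_pair_ne α
  have h1 : (Finset.univ.filter fun u : Perm α => Perm.sign u = 1).card =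
      (Finset.univ.filter fun u : Perm α => Perm.sign u = -1).card := by
    refine Finset.card_bij' (fun u _ => u * swap x y) (fun u _ => u * swap x y) ?_ ?_ ?_ ?_
    · intro u hu
      simp only [mem_filter, mem_univ, true_and] at hu ⊢
      simp [Perm.sign_mul, hu, Perm.sign_swap hxy]
    · intro u hu
      simp only [mem_filter, mem_univ, true_and] at hu ⊢
      simp [Perm.sign_mul, hu, Perm.sign_swap hxy]
    · intro u _
      simp [mul_assoc]
    · intro u _
      simp [mul_assoc]
  have h2 : (Finset.univ.filter fun u : Perm α => Perm.sign u = 1).card +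
      (Finset.univ.filter fun u : Perm α => Perm.sign u = -1).card = (Fintype.card α).factorial := by
    rw [← Finset.card_union_of_disjoint]
    · rw [← Fintype.card_perm, ← Finset.card_univ]
      congr 1
      ext u
      simp only [mem_union, mem_filter, mem_univ, true_and, iff_true]
      exact Int.units_eq_one_or _
    · rw [Finset.disjoint_filter]
      intro u _ h h'
      rw [h] at h'
      exact absurd h' (by decide)
  rcases Int.units_eq_one_or s with rfl | rfl <;> omega

open Classical in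
/-- the number of cycles of length `l` times `l (n-l)!` is `n!` -/
lemma card_cycles {n l : ℕ} (h2 : 2 ≤ l) (hl : l ≤ n) :
    (Finset.univ.filter fun c : Perm (Fin n) => c.IsCycle ∧ c.support.card = l).card *
      (l * (n - l).factorial) = n.factorial := by
  have h := Perm.card_of_cycleType_singleton (α := Fin n) h2 (by simpa using hl)
  have e : (Finset.univ.filter fun c : Perm (Fin n) => c.IsCycle ∧ c.support.card = l) =
      (Finset.univ.filter fun c : Perm (Fin n) => c.cycleType = {l}) := by
    ext c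
    simp only [mem_filter, mem_univ, true_and]
    constructor
    · rintro ⟨h1, h2⟩
      rw [h1.cycleType, h2]
    · intro h1
      have h3 : c.IsCycle := by
        rw [← Perm.card_cycleType_eq_one, h1, Multiset.card_singleton]
      refine ⟨h3, ?_⟩
      rw [h3.cycleType] at h1
      exact Multiset.singleton_inj.1 h1
  rw [e, h, Fintype.card_fin]
  have h5 : l.factorial = (l - 1).factorial * l := by
    rw [mul_comm, Nat.mul_factorial_pred (by omega)]
  have h6 := Nat.choose_mul_factorial_mul_factorial hl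
  rw [h5] at h6
  rw [← h6]
  ring

open Classical in
/-- the proof from the two facts on long cycles -/
theorem main (a : ℝ) (_ha : 0 < a) (ha1 : a ≤ 1 / 4) (n : ℕ) (hn : 3 ≤ n) (han : 2 ≤ a / 2 * n)
    (hS : ∑ π : Alt n, (∑ c ∈ (π : Perm (Fin n)).cycleFactorsFinset.filter
          (fun c => InW a n c.support.card), (1 : ℝ)) =
        ∑ c : Perm (Fin n) with c.IsCycle ∧ InW a n c.support.card,
          ∑ u : Perm {x // x ∉ c.support} with Perm.sign u = Perm.sign c, (1 : ℝ))
    (hU : ∀ (π c c' : Perm (Fin n)),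
      c ∈ π.cycleFactorsFinset → c' ∈ π.cycleFactorsFinset →
      InW a n c.support.card → InW a n c'.support.card → c = c') :
    (Nat.card {π : Alt n // LC a (π : Perm (Fin n))} : ℝ) = pW a n * Fintype.card (Alt n) := by
  -- left hand side
  have hL : (Nat.card {π : Alt n // LC a (π : Perm (Fin n))} : ℝ) =
      ∑ π : Alt n, (∑ c ∈ (π : Perm (Fin n)).cycleFactorsFinset.filter
          (fun c => InW a n c.support.card), (1 : ℝ)) := by
    rw [Nat.card_eq_fintype_card, Fintype.card_subtype, Finset.card_filter]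
    push_cast
    refine Finset.sum_congr rfl fun π _ => ?_
    rw [Finset.sum_const, nsmul_eq_mul, mul_one]
    by_cases h : LC a (π : Perm (Fin n))
    · rw [if_pos h]
      obtain ⟨c, hc, hw⟩ := h
      have : ((π : Perm (Fin n)).cycleFactorsFinset.filter
          (fun c => InW a n c.support.card)) = {c} := by
        ext c'
        simp only [mem_filter, mem_singleton]
        constructor
        · rintro ⟨h1, h2⟩
          exact hU π c' c h1 hc h2 hw
        · rintro rfl
          exact ⟨hc, hw⟩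
      rw [this]
      simp
    · rw [if_neg h]
      have : ((π : Perm (Fin n)).cycleFactorsFinset.filter
          (fun c => InW a n c.support.card)) = ∅ := by
        rw [Finset.filter_eq_empty_iff]
        intro c hc hw
        exact h ⟨c, hc, hw⟩
      rw [this]
      simp
  have hA : (2 : ℝ) * Fintype.card (Alt n) = n.factorial := by
    have : Nontrivial (Fin n) := Fin.nontrivial_iff_two_le.2 (by omega)
    have h := two_mul_card_alternatingGroup (α := Fin n)
    rw [Fintype.card_perm, Fintype.card_fin] at h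
    exact_mod_cast h
  -- right hand side
  have hR : (∑ c : Perm (Fin n) with c.IsCycle ∧ InW a n c.support.card,
          ∑ u : Perm {x // x ∉ c.support} with Perm.sign u = Perm.sign c, (1 : ℝ)) =
      ∑ c : Perm (Fin n) with c.IsCycle ∧ InW a n c.support.card,
        ((n - c.support.card).factorial : ℝ) / 2 := by
    refine Finset.sum_congr rfl fun c hc => ?_
    simp only [mem_filter, mem_univ, true_and] at hc
    obtain ⟨h1, h2, h3⟩ := hc
    have hcn : c.support.card ≤ n := by
      simpa using Finset.card_le_univ c.support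
    have hcard : Fintype.card {x // x ∉ c.support} = n - c.support.card := by
      rw [Fintype.card_subtype_compl, Fintype.card_fin, Fintype.card_coe]
    have h4 : 2 ≤ n - c.support.card := by
      have : (2 : ℝ) ≤ n - c.support.card := by nlinarith
      have h5 : ((2 + c.support.card : ℕ) : ℝ) ≤ n := by push_cast; linarith
      have h6 : 2 + c.support.card ≤ n := by exact_mod_cast h5
      omega
    have : Nontrivial {x // x ∉ c.support} := by
      rw [← Fintype.one_lt_card_iff_nontrivial, hcard]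
      omega
    have h := card_sign {x // x ∉ c.support} (Perm.sign c)
    rw [hcard] at h
    rw [Finset.sum_const, nsmul_eq_mul, mul_one]
    have h' : (2 : ℝ) * #{u : Perm {x // x ∉ c.support} | Perm.sign u = Perm.sign c} =
        (n - c.support.card).factorial := by exact_mod_cast h
    linarith
  rw [hL, hS, hR]
  have hfib : (∑ c : Perm (Fin n) with c.IsCycle ∧ InW a n c.support.card,
        ((n - c.support.card).factorial : ℝ) / 2) =
      ∑ l ∈ (Finset.range (n + 1)).filter (InW a n),
        ∑ c ∈ (Finset.univ.filter fun c : Perm (Fin n) =>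
          c.IsCycle ∧ InW a n c.support.card).filter (fun c => c.support.card = l),
          ((n - c.support.card).factorial : ℝ) / 2 := by
    refine (Finset.sum_fiberwise_of_maps_to (fun (c : Perm (Fin n)) hc => ?_) _).symm
    simp only [mem_filter, mem_univ, true_and, mem_range] at hc ⊢
    refine ⟨?_, hc.2⟩
    have hcn : c.support.card ≤ n := by
      simpa using Finset.card_le_univ c.support
    omega
  rw [hfib, pW, Finset.sum_mul]
  refine Finset.sum_congr rfl fun l hl => ?_
  simp only [mem_filter, mem_range] at hl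
  obtain ⟨hl1, hl2, hl3⟩ := hl
  have hln : l ≤ n := by omega
  have hl2' : 2 ≤ l := by
    have hn' : (3 : ℝ) ≤ n := by exact_mod_cast hn
    have h5 : (9 / 4 : ℝ) ≤ l := by nlinarith
    by_contra hcon
    have : l ≤ 1 := by omega
    have h6 : (l : ℝ) ≤ 1 := by exact_mod_cast this
    linarith
  have e1 : (Finset.univ.filter fun c : Perm (Fin n) =>
          c.IsCycle ∧ InW a n c.support.card).filter (fun c => c.support.card = l) =
      (Finset.univ.filter fun c : Perm (Fin n) => c.IsCycle ∧ c.support.card = l) := by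
    ext c
    simp only [mem_filter, mem_univ, true_and]
    constructor
    · rintro ⟨⟨h1, h2⟩, h3⟩
      exact ⟨h1, h3⟩
    · rintro ⟨h1, h3⟩
      refine ⟨⟨h1, ?_⟩, h3⟩
      rw [h3]
      exact ⟨hl2, hl3⟩
  rw [e1]
  have e2 : ∑ c ∈ (Finset.univ.filter fun c : Perm (Fin n) => c.IsCycle ∧ c.support.card = l),
      ((n - c.support.card).factorial : ℝ) / 2 =
      ∑ c ∈ (Finset.univ.filter fun c : Perm (Fin n) => c.IsCycle ∧ c.support.card = l),
      ((n - l).factorial : ℝ) / 2 := by
    refine Finset.sum_congr rfl fun c hc => ?_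
    simp only [mem_filter, mem_univ, true_and] at hc
    rw [hc.2]
  rw [e2, Finset.sum_const, nsmul_eq_mul]
  have h7 := card_cycles hl2' hln
  have h8 : (#{c : Perm (Fin n) | c.IsCycle ∧ c.support.card = l} : ℝ) *
      (l * (n - l).factorial) = n.factorial := by exact_mod_cast h7
  rw [← hA] at h8
  have hlpos : (0 : ℝ) < l := by
    have : 0 < l := by omega
    exact_mod_cast this
  field_simp
  linarith

/-- the number of elements of the window -/
lemma card_win (a : ℝ) (ha : 0 < a) (ha1 : a ≤ 1 / 4) (n : ℕ) (S : Finset ℕ)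
    (hS : ∀ l, l ∈ S ↔ l < n + 1 ∧ InW a n l) :
    a / 2 * n - 1 ≤ (#S : ℝ) ∧ (#S : ℝ) ≤ a / 2 * n + 1 := by
  have hn0 : (0 : ℝ) ≤ n := Nat.cast_nonneg n
  have h0 : 0 ≤ (1 - a) * (n : ℝ) := by nlinarith
  have h0' : 0 ≤ (1 - a / 2) * (n : ℝ) := by nlinarith
  have hSe : S = Finset.Icc ⌈(1 - a) * (n : ℝ)⌉₊ ⌊(1 - a / 2) * (n : ℝ)⌋₊ := by
    ext l
    rw [hS, Finset.mem_Icc, Nat.ceil_le, Nat.le_floor_iff h0']
    constructor
    · rintro ⟨_, h2, h3⟩
      exact ⟨h2, h3⟩
    · rintro ⟨h2, h3⟩
      refine ⟨?_, h2, h3⟩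
      have : (l : ℝ) ≤ n := by nlinarith
      have : l ≤ n := by exact_mod_cast this
      omega
  rw [hSe, Nat.card_Icc]
  have h1 := Nat.le_ceil ((1 - a) * (n : ℝ))
  have h2 := Nat.ceil_lt_add_one h0
  have h3 := Nat.floor_le h0'
  have h4 := Nat.lt_floor_add_one ((1 - a / 2) * (n : ℝ))
  constructor
  · have h5 : (⌊(1 - a / 2) * (n : ℝ)⌋₊ + 1 : ℝ) - ⌈(1 - a) * (n : ℝ)⌉₊ ≤
        ((⌊(1 - a / 2) * (n : ℝ)⌋₊ + 1 - ⌈(1 - a) * (n : ℝ)⌉₊ : ℕ) : ℝ) := by
      have := Nat.le_sub_of_add_le (le_refl (⌊(1 - a / 2) * (n : ℝ)⌋₊ + 1 + ⌈(1 - a) * (n : ℝ)⌉₊))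
      have h6 : ⌊(1 - a / 2) * (n : ℝ)⌋₊ + 1 ≤
        (⌊(1 - a / 2) * (n : ℝ)⌋₊ + 1 - ⌈(1 - a) * (n : ℝ)⌉₊) + ⌈(1 - a) * (n : ℝ)⌉₊ := by omega
      have h7 : ((⌊(1 - a / 2) * (n : ℝ)⌋₊ + 1 : ℕ) : ℝ) ≤
        ((⌊(1 - a / 2) * (n : ℝ)⌋₊ + 1 - ⌈(1 - a) * (n : ℝ)⌉₊ : ℕ) : ℝ) +
          ((⌈(1 - a) * (n : ℝ)⌉₊ : ℕ) : ℝ) := by exact_mod_cast h6
      push_cast at h7
      linarith
    linarith
  · by_cases hle : ⌈(1 - a) * (n : ℝ)⌉₊ ≤ ⌊(1 - a / 2) * (n : ℝ)⌋₊ + 1
    · rw [Nat.cast_sub hle]
      push_cast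
      linarith
    · have : ⌊(1 - a / 2) * (n : ℝ)⌋₊ + 1 - ⌈(1 - a) * (n : ℝ)⌉₊ = 0 := by omega
      rw [this]
      push_cast
      nlinarith

end LCPROB

/-- `pW` is bounded below -/
theorem PWLOW (a : ℝ) (ha : 0 < a) (ha1 : a ≤ 1 / 4) : ∀ᶠ n : ℕ in atTop,
    a / 3 ≤ pW a n ∧ pW a n ≤ 1 := by
  classical
  filter_upwards [eventually_ge_atTop (⌈6 / a⌉₊ + 3)] with n hn
  have hn3 : 3 ≤ n := by omega
  have hna : 6 / a ≤ n := by
    have h1 := Nat.le_ceil (6 / a)
    have h2 : ((⌈6 / a⌉₊ + 3 : ℕ) : ℝ) ≤ n := by exact_mod_cast hn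
    push_cast at h2
    linarith
  have hna' : 6 ≤ a * n := by
    rw [div_le_iff₀ ha] at hna
    linarith
  have hn3' : (3 : ℝ) ≤ n := by exact_mod_cast hn3
  obtain ⟨h1, h2⟩ := LCPROB.card_win a ha ha1 n ((Finset.range (n + 1)).filter (InW a n))
    (fun l => by simp only [mem_filter, mem_range])
  have hpos1 : 0 < (1 - a / 2) * (n : ℝ) := by nlinarith
  have hpos2 : 0 < (1 - a) * (n : ℝ) := by nlinarith
  constructor
  · have h3 : (#((Finset.range (n + 1)).filter (InW a n)) : ℝ) * (1 / ((1 - a / 2) * n)) ≤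
        pW a n := by
      rw [← nsmul_eq_mul]
      unfold pW
      refine Finset.card_nsmul_le_sum _ _ _ fun l hl => ?_
      simp only [mem_filter, mem_range] at hl
      have hl0 : (0 : ℝ) < l := lt_of_lt_of_le hpos2 hl.2.1
      exact one_div_le_one_div_of_le hl0 hl.2.2
    refine le_trans ?_ h3
    rw [mul_one_div, le_div_iff₀ hpos1]
    nlinarith
  · have h3 : pW a n ≤ (#((Finset.range (n + 1)).filter (InW a n)) : ℝ) *
        (1 / ((1 - a) * n)) := by
      rw [← nsmul_eq_mul]
      unfold pW
      refine Finset.sum_le_card_nsmul _ _ _ fun l hl => ?_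
      simp only [mem_filter, mem_range] at hl
      exact one_div_le_one_div_of_le hpos2 hl.2.1
    refine le_trans h3 ?_
    rw [mul_one_div, div_le_one hpos2]
    nlinarith

/-- the proportion of even permutations with a long cycle -/
theorem LCPROB (a : ℝ) (ha : 0 < a) (ha1 : a ≤ 1 / 4) : ∀ᶠ n : ℕ in atTop,
    (Nat.card {π : Alt n // LC a (π : Perm (Fin n))} : ℝ) = pW a n * Fintype.card (Alt n) := by
  filter_upwards [eventually_ge_atTop (⌈4 / a⌉₊ + 3), LCSUM a ha ha1] with n hn hS
  have hn3 : 3 ≤ n := by omega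
  have hna : 4 / a ≤ n := by
    have h1 := Nat.le_ceil (4 / a)
    have h2 : ((⌈4 / a⌉₊ + 3 : ℕ) : ℝ) ≤ n := by exact_mod_cast hn
    push_cast at h2
    linarith
  have hna' : 4 ≤ a * n := by
    rw [div_le_iff₀ ha] at hna
    linarith
  refine LCPROB.main a ha ha1 n hn3 (by linarith) (hS fun _ _ => 1) ?_
  intro π c c' hc hc' h h'
  exact LCUNIQ a ha ha1 n (by omega) π c c' hc hc' h h'

end DM852
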